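import Mathlib
import Pool.Agent.R233.Kob2

/-!
# The boundary lower bound for the Kobayashi distance fails on Reinhardt domains

`D` is the set of the `z ∈ ℂⁿ`, `n ≥ 3`, with `|z_i| < e`, `|z₁| < 1` and
`|z₁| |z₂|^{c⁴} |z₃|^{2c} e^{-c²} < 1` for all `c ∈ [0, 1/4]`, `ζ₀ = (1, ..., 1)`,
`z^c = (e^{-c²-c³}, 1, e^c, 1, ..., 1)`. The distance of `z^c` to the boundary is at most `c³`.
For fixed `z₁, z₃, ...` the disc `|z₂| < e` through `z^c` lies in `D`, and on the slice `z₂ = 0`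
the only condition on `z₁` is `|z₁| < 1`; so `k_D(z₀, z^c) ≤ A + ½ log (4/c²)`, whereas
`-½ log (c³)` is larger by `½ log (1/(4c))`.
-/

set_option autoImplicit false

open Topology Filter
open Pool.Agent.R233 Pool.Agent.R233.Kob

namespace Pool.Agent.Results.MP_3c459d_an.LowerBoundFails

/-- For every `n ≥ 3` there are a bounded pseudoconvex Reinhardt domain `D ⊂ ℂⁿ`, a boundary point
`ζ` with all coordinates nonzero and a sequence `z_j ∈ D` with `z_j → ζ` such that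
`k_D(z₀, z_j) + ½ log d_D(z_j) → -∞` for every `z₀ ∈ D`. -/
theorem result (n : ℕ) (hn : 3 ≤ n) :
    ∃ (D : Set (Fin n → ℂ)) (ζ : Fin n → ℂ) (z : ℕ → Fin n → ℂ),
      IsOpen D ∧ IsConnected D ∧ Bornology.IsBounded D ∧ IsPseudoconvex D ∧ IsReinhardt D ∧
      ζ ∈ frontier D ∧ (∀ i, ζ i ≠ 0) ∧ (∀ j, z j ∈ D) ∧ Tendsto z atTop (𝓝 ζ) ∧
      ∀ z₀ ∈ D, Tendsto (fun j => kobayashi D z₀ (z j) + 1 / 2 * Real.log (bdist D (z j)))
        atTop atBot :=
  kob_main n hn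

end Pool.Agent.Results.MP_3c459d_an.LowerBoundFails
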